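import Mathlib

namespace Pool.Agent.Results.MP_adc20b_pr.NotEvanescent
open MeasureTheory Set Filter Matrix
open scoped ENNReal Topology

/-- states `(x, i)` -/
abbrev St (d n : ℕ) : Type := (Fin d → ℕ) × Fin n

/-- reactions `y → y'` of each environment, their rate constants, the switching matrix `Q` -/
structure Net (d n : ℕ) where
  R : Fin n → Finset ((Fin d → ℕ) × (Fin d → ℕ))
  c : Fin n → (Fin d → ℕ) × (Fin d → ℕ) → ℝ
  Q : Matrix (Fin n) (Fin n) ℝ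

section defs
variable {d n : ℕ} (N : Net d n) (κ : ℝ)

/-- mass-action rate -/
def lam (i : Fin n) (r : (Fin d → ℕ) × (Fin d → ℕ)) (x : Fin d → ℕ) : ℝ :=
  N.c i r * ∏ m, ((x m).descFactorial (r.1 m) : ℝ)

/-- total jump rate at a state -/
def tot (z : St d n) : ℝ :=
  ∑ r ∈ N.R z.2, lam N z.2 r z.1 + ∑ j ∈ Finset.univ.erase z.2, κ * N.Q z.2 j

/-- from state `y.1` entered at time `y.2`: a jump of rate `a` comes next, after a holding time
`t`, with density `a * exp (-tot * t)`; `step` integrates `f (new state, jump time)` -/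
noncomputable def step (y : St d n × ℝ) (f : St d n × ℝ → ℝ≥0∞) : ℝ≥0∞ :=
  ∫⁻ t in Ioi 0, ENNReal.ofReal (Real.exp (-(tot N κ y.1 * t))) *
    (∑ r ∈ N.R y.1.2, ENNReal.ofReal (lam N y.1.2 r y.1.1) *
        f ((y.1.1 + r.2 - r.1, y.1.2), y.2 + t) +
      ∑ j ∈ Finset.univ.erase y.1.2, ENNReal.ofReal (κ * N.Q y.1.2 j) * f ((y.1.1, j), y.2 + t))

/-- `P` is the law of the sequence `(Z_k, S_k)` of states and jump times of `Z_κ` started at `z` -/
def IsLaw (z : St d n) (P : Measure (ℕ → St d n × ℝ)) : Prop :=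
  IsProbabilityMeasure P ∧ (∀ᵐ ω ∂P, ω 0 = (z, 0)) ∧
    ∀ (k : ℕ) (F : (Fin (k + 1) → St d n × ℝ) × (St d n × ℝ) → ℝ≥0∞), Measurable F →
      ∫⁻ ω, F (fun j => ω j, ω (k + 1)) ∂P = ∫⁻ ω, step N κ (ω k) (fun y => F (fun j => ω j, y)) ∂P

/-- `‖X(t)‖₁ → ∞`, where `X(t) = X_k` for `S_k ≤ t < S_{k+1}` -/
def Escapes (ω : ℕ → St d n × ℝ) : Prop :=
  ∀ B : ℕ, ∃ t₀ : ℝ, ∀ t ≥ t₀, ∀ k, (ω k).2 ≤ t → t < (ω (k + 1)).2 → B ≤ ∑ m, (ω k).1.1 m
end defs

def N0 : Net 2 2 where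
  R := ![{(![1, 0], ![0, 2]), (![0, 1], ![0, 2])}, {(![1, 0], ![2, 0]), (![0, 1], ![0, 0])}]
  c i r := if r.1 i = 1 then 4 else 1
  Q := !![-1, 1; 1, -1]

variable {κ : ℝ}

/-- the real jump sum -/
def G (κ : ℝ) (g : St 2 2 → ℝ) (z : St 2 2) : ℝ :=
  ∑ r ∈ N0.R z.2, lam N0 z.2 r z.1 * g (z.1 + r.2 - r.1, z.2) +
    ∑ j ∈ Finset.univ.erase z.2, κ * N0.Q z.2 j * g (z.1, j)

lemma G0 (g : St 2 2 → ℝ) (x : Fin 2 → ℕ) : G κ g (x, 0) = 4 * x 0 * g (![x 0 - 1, x 1 + 2], 0) +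
    x 1 * g (![x 0, x 1 + 1], 0) + κ * g (x, 1) := by
  have e1 : x + ![0, 2] - ![1, 0] = ![x 0 - 1, x 1 + 2] := by
    ext m; fin_cases m <;> simp [vecHead, vecTail]
  have e2 : x + ![0, 2] - ![0, 1] = ![x 0, x 1 + 1] := by
    ext m; fin_cases m <;> simp [vecHead, vecTail]
  simp only [G, N0, lam, cons_val_zero]
  rw [Finset.sum_pair (by decide), show Finset.univ.erase (0 : Fin 2) = {1} by decide, e1, e2]
  simp

lemma G1 (g : St 2 2 → ℝ) (x : Fin 2 → ℕ) : G κ g (x, 1) = x 0 * g (![x 0 + 1, x 1], 1) +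
    4 * x 1 * g (![x 0, x 1 - 1], 1) + κ * g (x, 0) := by
  have e1 : x + ![2, 0] - ![1, 0] = ![x 0 + 1, x 1] := by
    ext m; fin_cases m <;> simp [vecHead, vecTail]
  have e2 : x + ![0, 0] - ![0, 1] = ![x 0, x 1 - 1] := by
    ext m; fin_cases m <;> simp [vecHead, vecTail]
  simp only [G, N0, lam, cons_val_one, cons_val_zero]
  rw [Finset.sum_pair (by decide), show Finset.univ.erase (1 : Fin 2) = {0} by decide, e1, e2]
  simp

lemma tot_eq (z : St 2 2) : tot N0 κ z = G κ 1 z := by simp [tot, G]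

lemma lam_nonneg (i : Fin 2) (r) (x) : 0 ≤ lam N0 i r x := by
  simp only [lam, N0]; split_ifs <;> positivity

lemma Q_eq {i j : Fin 2} (h : j ∈ Finset.univ.erase i) : N0.Q i j = 1 := by
  revert h; fin_cases i <;> fin_cases j <;> simp [N0]

lemma tot_pos (hκ : 0 < κ) (z : St 2 2) : 0 < tot N0 κ z := by
  obtain ⟨x, i⟩ := z
  rw [tot_eq]
  fin_cases i <;> simp only [Fin.zero_eta, Fin.mk_one, G0, G1, Pi.one_apply] <;> positivity

lemma step_exp (hκ : 0 < κ) {c : ℝ} (hc : 0 ≤ c) {g : St 2 2 → ℝ} (hg : ∀ z, 0 ≤ g z)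
    (y : St 2 2 × ℝ) : step N0 κ y (fun y => ENNReal.ofReal (Real.exp (-(c * y.2)) * g y.1)) =
      ENNReal.ofReal (Real.exp (-(c * y.2)) * G κ g y.1 / (tot N0 κ y.1 + c)) := by
  have h1 : ∀ r ∈ N0.R y.1.2, 0 ≤ lam N0 y.1.2 r y.1.1 * g (y.1.1 + r.2 - r.1, y.1.2) :=
    fun r _ => mul_nonneg (lam_nonneg _ _ _) (hg _)
  have h2 : ∀ j ∈ Finset.univ.erase y.1.2, 0 ≤ κ * N0.Q y.1.2 j := fun j hj => by
    rw [Q_eq hj]; positivity
  have h3 : 0 ≤ G κ g y.1 := add_nonneg (Finset.sum_nonneg h1)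
    (Finset.sum_nonneg fun j hj => mul_nonneg (h2 j hj) (hg _))
  have hq : -(tot N0 κ y.1 + c) < 0 := by linarith [tot_pos hκ y.1]
  rw [step, lintegral_congr (g := fun t => ENNReal.ofReal (Real.exp (-(c * y.2)) * G κ g y.1 *
    Real.exp (-(tot N0 κ y.1 + c) * t))), ← ofReal_integral_eq_lintegral_ofReal
      ((integrableOn_exp_mul_Ioi hq 0).const_mul _) (.of_forall fun t => by positivity),
      integral_const_mul, integral_exp_mul_Ioi hq]
  · congr 1; simp [div_eq_mul_inv, -neg_add_rev, inv_neg]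
  intro t
  rw [Finset.sum_congr rfl fun r _ => (ENNReal.ofReal_mul (lam_nonneg _ r _)).symm,
    Finset.sum_congr rfl fun j hj => (ENNReal.ofReal_mul (h2 j hj)).symm,
    ← ENNReal.ofReal_sum_of_nonneg, ← ENNReal.ofReal_sum_of_nonneg, ← ENNReal.ofReal_add,
    ← ENNReal.ofReal_mul (Real.exp_pos _).le]
  · congr 1
    have : Real.exp (-(tot N0 κ y.1 * t)) * Real.exp (-(c * (y.2 + t))) =
        Real.exp (-(c * y.2)) * Real.exp (-(tot N0 κ y.1 + c) * t) := by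
      rw [← Real.exp_add, ← Real.exp_add]; ring_nf
    simp only [mul_left_comm _ (Real.exp (-(c * (y.2 + t)))), ← Finset.mul_sum, ← mul_add, G]
    rw [← mul_assoc, mul_comm (Real.exp (-(c * (y.2 + t)))), this]; ring
  all_goals first
    | exact Finset.sum_nonneg fun r _ => mul_nonneg (lam_nonneg _ _ _)
        (mul_nonneg (Real.exp_pos _).le (hg _))
    | exact Finset.sum_nonneg fun j hj => mul_nonneg (h2 j hj)
        (mul_nonneg (Real.exp_pos _).le (hg _))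
    | exact fun r _ => mul_nonneg (lam_nonneg _ _ _) (mul_nonneg (Real.exp_pos _).le (hg _))
    | exact fun j hj => mul_nonneg (h2 j hj) (mul_nonneg (Real.exp_pos _).le (hg _))

lemma bern {θ a b : ℝ} (h0 : 0 ≤ θ) (h1 : θ ≤ 1) (ha : 0 < a) (hb : 0 ≤ b) :
    b ^ θ ≤ a ^ θ * (1 + θ * ((b - a) / a)) := by
  have e : b = a * (1 + (b - a) / a) := by field_simp; ring
  have h : -1 ≤ (b - a) / a := by rw [le_div_iff₀ ha]; linarith
  conv_lhs => rw [e, Real.mul_rpow ha.le (by linarith)]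
  exact mul_le_mul_of_nonneg_left (rpow_one_add_le_one_add_mul_self h h0 h1) (by positivity)

lemma bern' {θ : ℝ} (h0 : 0 < θ) (h1 : θ ≤ 1) (u : ℕ) {b s : ℝ} (hb : 0 ≤ b)
    (h : u ≠ 0 → b = u + s) : u * b ^ θ ≤ (u : ℝ) ^ θ * (u + θ * s) := by
  rcases eq_or_ne u 0 with rfl | hu
  · simp [h0.ne']
  have hu' : (0 : ℝ) < u := by positivity
  refine (mul_le_mul_of_nonneg_left (bern h0.le h1 hu' hb) hu'.le).trans_eq ?_
  rw [h hu]; field_simp; ring

noncomputable def V (κ : ℝ) (z : St 2 2) : ℝ :=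
  ![6, 18] z.2 * (z.1 0 : ℝ) ^ (κ / 2) + ![2, 1] z.2 * (2 * z.1 0 + z.1 1 : ℝ) ^ (κ / 2)

lemma V_ge (z : St 2 2) : (2 * z.1 0 + z.1 1 : ℝ) ^ (κ / 2) ≤ V κ z := by
  obtain ⟨x, i⟩ := z
  have : 0 ≤ (x 0 : ℝ) ^ (κ / 2) := by positivity
  have : 0 ≤ (2 * x 0 + x 1 : ℝ) ^ (κ / 2) := by positivity
  fin_cases i <;> simp [V] <;> linarith

lemma lyap (hκ : 0 < κ) (h2 : κ ≤ 2) (z : St 2 2) : G κ (V κ) z ≤ tot N0 κ z * V κ z := by
  obtain ⟨x, i⟩ := z
  obtain ⟨θ, rfl⟩ : ∃ θ, κ = 2 * θ := ⟨κ / 2, by ring⟩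
  have h0 : 0 < θ := by linarith
  have h1 : θ ≤ 1 := by linarith
  rw [tot_eq]
  rcases eq_or_lt_of_le (show (0 : ℝ) ≤ 2 * x 0 + x 1 by positivity) with hy | hy
  · have e0 : x 0 = 0 := by exact_mod_cast (show (x 0 : ℝ) = 0 by linarith [(x 0).cast_nonneg (α := ℝ), (x 1).cast_nonneg (α := ℝ)])
    have e1 : x 1 = 0 := by exact_mod_cast (show (x 1 : ℝ) = 0 by linarith [(x 0).cast_nonneg (α := ℝ), (x 1).cast_nonneg (α := ℝ)])
    fin_cases i <;> simp [G0, G1, V, e0, e1, h0.ne']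
  have hY : 0 ≤ (2 * x 0 + x 1 : ℝ) ^ θ := by positivity
  have hv : (x 1 : ℝ) / (2 * x 0 + x 1) ≤ 1 := by rw [div_le_one hy]; linarith [(x 0).cast_nonneg (α := ℝ)]
  fin_cases i <;> simp only [Fin.zero_eta, Fin.mk_one, G0, G1, V, Pi.one_apply, cons_val_zero,
    cons_val_one, mul_div_cancel_left₀ θ (two_ne_zero' ℝ), Nat.cast_add, Nat.cast_ofNat,
    Nat.cast_one]
  · have a1 := bern' h0 h1 (x 0) (s := -1) (Nat.cast_nonneg (x 0 - 1)) fun h => by
      rw [Nat.cast_pred (by omega)]; ring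
    have a2 : (x 0 : ℝ) * (2 * ((x 0 - 1 : ℕ) : ℝ) + (x 1 + 2)) ^ θ =
        x 0 * (2 * x 0 + x 1 : ℝ) ^ θ := by
      rcases eq_or_ne (x 0) 0 with h | h
      · simp [h]
      · rw [Nat.cast_pred (by omega)]; ring_nf
    have a3 := mul_le_mul_of_nonneg_left (bern h0.le h1 hy
      (show (0 : ℝ) ≤ 2 * x 0 + (x 1 + 1) by positivity)) (x 1).cast_nonneg
    have a4 := mul_le_mul_of_nonneg_left hv (mul_nonneg h0.le hY)
    rw [show (2 * x 0 + (x 1 + 1) - (2 * x 0 + x 1) : ℝ) = 1 by ring] at a3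
    simp only [div_eq_mul_inv] at a3 a4
    nlinarith
  · have a1 := bern' h0 h1 (x 0) (s := 1) (b := x 0 + 1) (by positivity) fun _ => rfl
    have a2 := mul_le_mul_of_nonneg_left (bern h0.le h1 hy
      (show (0 : ℝ) ≤ 2 * (x 0 + 1) + x 1 by positivity)) (x 0).cast_nonneg
    rw [show (2 * (x 0 + 1) + x 1 - (2 * x 0 + x 1) : ℝ) = 2 by ring] at a2
    have a3 : (x 1 : ℝ) * (2 * x 0 + ((x 1 - 1 : ℕ) : ℝ)) ^ θ ≤
        x 1 * ((2 * x 0 + x 1 : ℝ) ^ θ * (1 + θ * (-1 / (2 * x 0 + x 1)))) := by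
      rcases eq_or_ne (x 1) 0 with h | h
      · simp [h]
      · refine mul_le_mul_of_nonneg_left ((bern h0.le h1 hy (by positivity)).trans_eq ?_)
          (x 1).cast_nonneg
        rw [Nat.cast_pred (by omega)]; ring_nf
    have a4 : x 0 / (2 * x 0 + x 1) * (2 * x 0 + x 1 : ℝ) ^ θ ≤ (x 0 : ℝ) ^ θ := by
      have := Real.self_le_rpow_of_le_one (x := x 0 / (2 * x 0 + x 1)) (by positivity)
        (by rw [div_le_one hy]; linarith [(x 0).cast_nonneg (α := ℝ), (x 1).cast_nonneg (α := ℝ)]) h1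
      rwa [Real.div_rpow (by positivity) hy.le, le_div_iff₀ (by positivity)] at this
    have a5 := mul_le_mul_of_nonneg_left a4 h0.le
    have a6 : θ * (2 * x 0 + x 1 : ℝ) ^ θ * ((2 * x 0 + x 1) * (2 * x 0 + x 1 : ℝ)⁻¹) =
      θ * (2 * x 0 + x 1 : ℝ) ^ θ := by rw [mul_inv_cancel₀ hy.ne', mul_one]
    have a7 : 0 ≤ θ * (2 * x 0 + x 1 : ℝ) ^ θ * (x 1 * (2 * x 0 + x 1 : ℝ)⁻¹) := by positivity
    simp only [div_eq_mul_inv] at a2 a3 a5
    nlinarith

def W (z : St 2 2) : ℝ := 1 + 2 * z.1 0 + z.1 1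

lemma lyap' (hκ : 0 < κ) (h2 : κ ≤ 2) (z : St 2 2) :
    G κ W z / (tot N0 κ z + 2) + 1 / 4 ≤ W z := by
  rw [← le_sub_iff_add_le, div_le_iff₀ (by linarith [tot_pos hκ z]), tot_eq]
  obtain ⟨x, i⟩ := z
  have h0 := (x 0).cast_nonneg (α := ℝ)
  have h1 := (x 1).cast_nonneg (α := ℝ)
  fin_cases i <;> simp only [Fin.zero_eta, Fin.mk_one, G0, G1, W, Pi.one_apply, cons_val_zero,
    cons_val_one, Nat.cast_add, Nat.cast_ofNat, Nat.cast_one]
  · have : (x 0 : ℝ) * ((x 0 - 1 : ℕ) : ℝ) = x 0 * (x 0 - 1) := by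
      rcases eq_or_ne (x 0) 0 with h | h
      · simp [h]
      · rw [Nat.cast_pred (by omega)]
    nlinarith
  · have : (x 1 : ℝ) * ((x 1 - 1 : ℕ) : ℝ) ≤ x 1 * x 1 := by gcongr; omega
    nlinarith

section prob
variable {z : St 2 2} {P : Measure (ℕ → St 2 2 × ℝ)} (hP : IsLaw N0 κ z P)

lemma mf (c : ℝ) (g : St 2 2 → ℝ) :
    Measurable fun y : St 2 2 × ℝ => ENNReal.ofReal (Real.exp (-(c * y.2)) * g y.1) := by
  have := measurable_of_countable g
  fun_prop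

include hP

lemma drift {f h : St 2 2 × ℝ → ℝ≥0∞} (hf : Measurable f) (hh : Measurable h)
    (hs : ∀ y, step N0 κ y f + h y ≤ f y) (k : ℕ) :
    ∫⁻ ω, f (ω k) ∂P + ∑ j ∈ Finset.range k, ∫⁻ ω, h (ω j) ∂P ≤ f (z, 0) := by
  have := hP.1
  induction k with
  | zero => simp [lintegral_congr_ae (hP.2.1.mono fun ω hω => congrArg f hω)]
  | succ k ih =>
    rw [hP.2.2 k (fun p => f p.2) (hf.comp measurable_snd), Finset.sum_range_succ_comm, ← add_assoc,
      ← lintegral_add_right _ (g := fun ω : ℕ → St 2 2 × ℝ => h (ω k))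
        (hh.comp (measurable_pi_apply k))]
    exact (add_le_add_left (lintegral_mono fun ω => hs _) _).trans ih

lemma ae_lt (k : ℕ) : ∀ᵐ ω ∂P, (ω k).2 < (ω (k + 1)).2 := by
  have hm : MeasurableSet {p : (Fin (k + 1) → St 2 2 × ℝ) × (St 2 2 × ℝ) |
    p.2.2 ≤ (p.1 (Fin.last k)).2} := measurableSet_le (by fun_prop) (by fun_prop)
  have h := hP.2.2 k _ (measurable_one.indicator hm)
  have h0 : ∀ ω : ℕ → St 2 2 × ℝ, step N0 κ (ω k) (fun y => {p : (Fin (k + 1) → St 2 2 × ℝ) ×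
      (St 2 2 × ℝ) | p.2.2 ≤ (p.1 (Fin.last k)).2}.indicator 1 (fun j => ω j, y)) = 0 := fun ω => by
    refine (setLIntegral_congr_fun measurableSet_Ioi (g := 0) fun t ht => ?_).trans (by simp)
    simp [indicator, not_le.2 (mem_Ioi.1 ht)]
  simp only [h0, lintegral_zero] at h
  filter_upwards [(lintegral_eq_zero_iff ((measurable_one.indicator hm).comp
    (f := fun ω : ℕ → St 2 2 × ℝ => (fun j : Fin (k + 1) => ω j, ω (k + 1))) (by fun_prop))).1 h]
    with ω hω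
  simpa [indicator] using hω

lemma main (hκ : 0 < κ) (h2 : κ ≤ 2) : P {ω | Escapes ω} = 0 := by
  have hV : ∀ z, 0 ≤ V κ z := fun z => le_trans (by positivity) (V_ge z)
  have d1 := drift hP (mf 0 (V κ)) measurable_zero fun y => by
    rw [step_exp hκ le_rfl hV]
    simpa using ENNReal.ofReal_le_ofReal
      ((div_le_iff₀' (tot_pos hκ y.1)).2 (lyap hκ h2 y.1))
  have d2 := drift hP (mf 2 W) (mf 2 fun _ => 1 / 4) fun y => by
    have hW : ∀ z, 0 ≤ W z := fun z => by unfold W; positivity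
    rw [step_exp hκ two_pos.le hW, mul_div_assoc]
    by_cases h : 0 ≤ G κ W y.1 / (tot N0 κ y.1 + 2)
    · rw [← ENNReal.ofReal_add (by positivity) (by positivity), ← mul_add]
      exact ENNReal.ofReal_le_ofReal (by gcongr; exact lyap' hκ h2 _)
    · rw [ENNReal.ofReal_of_nonpos (mul_nonpos_of_nonneg_of_nonpos (Real.exp_pos _).le
        (not_le.1 h).le), zero_add]
      refine ENNReal.ofReal_le_ofReal (by gcongr; unfold W; have := (y.1.1 0).cast_nonneg (α := ℝ); have := (y.1.1 1).cast_nonneg (α := ℝ); linarith)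
  have e1 := ae_lt_top (Measurable.liminf fun k => (mf 0 (V κ)).comp (measurable_pi_apply k))
    (ne_top_of_le_ne_top ENNReal.ofReal_ne_top ((lintegral_liminf_le fun k =>
      (mf 0 (V κ)).comp (measurable_pi_apply k)).trans
        (liminf_le_of_frequently_le' (.of_forall fun k => le_self_add.trans (d1 k)))))
  have e2 := ae_lt_top (μ := P) (Measurable.tsum fun k =>
    (mf 2 fun _ => 1 / 4).comp (measurable_pi_apply k)) (by
      rw [lintegral_tsum fun k => ((mf 2 fun _ => 1 / 4).comp (measurable_pi_apply k)).aemeasurable]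
      exact ne_top_of_le_ne_top ENNReal.ofReal_ne_top
        (ENNReal.tsum_le_of_sum_range_le fun k => le_add_self.trans (d2 k)))
  refine measure_eq_zero_iff_ae_notMem.2 ?_
  filter_upwards [e1, e2, ae_all_iff.2 (ae_lt hP)] with ω h1 h3 h4 hE
  have t1 : Tendsto (fun k => (ω k).2) atTop atTop := by
    have := (ENNReal.tendsto_toReal ENNReal.zero_ne_top).comp
      (ENNReal.tendsto_atTop_zero_of_tsum_ne_top h3.ne)
    have t : Tendsto (fun k => Real.exp (-(2 * (ω k).2))) atTop (𝓝 0) := by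
      simpa [Function.comp_def, mul_assoc, (Real.exp_pos _).le] using this.mul_const 4
    exact (tendsto_neg_atBot_iff.1 (Real.tendsto_exp_comp_nhds_zero.1 t)).atTop_of_const_mul₀ two_pos
  have t2 : Tendsto (fun k => ∑ m, (ω k).1.1 m) atTop atTop := tendsto_atTop.2 fun B => by
    obtain ⟨t₀, ht⟩ := hE B
    filter_upwards [t1.eventually_ge_atTop t₀] with k hk using ht _ hk k le_rfl (h4 k)
  have t3 : Tendsto (fun k => V κ (ω k).1) atTop atTop := by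
    refine tendsto_atTop_mono (fun k => le_trans ?_ (V_ge _)) ((tendsto_rpow_atTop
      (half_pos hκ)).comp (tendsto_natCast_atTop_atTop.comp t2))
    simp only [Function.comp, Fin.sum_univ_two, Nat.cast_add]
    gcongr
    linarith [((ω k).1.1 0).cast_nonneg (α := ℝ)]
  have := (ENNReal.tendsto_ofReal_atTop.comp t3).liminf_eq
  simp [Function.comp_def] at this h1
  exact h1.ne this
end prob

theorem result : ∃ (N : Net 2 2) (M : Fin 2 → Matrix (Fin 2) (Fin 2) ℝ) (v : Fin 2 → Fin 2 → ℝ),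
    (∀ i, ∀ r ∈ N.R i, 0 < N.c i r ∧ (r.1 = 0 ∨ ∃ l, r.1 = Pi.single l 1)) ∧
    (∀ i m, (fun x : Fin 2 → ℕ => ∑ r ∈ N.R i, lam N i r x * ((r.2 m : ℝ) - r.1 m) -
        (M i *ᵥ fun l => (x l : ℝ)) m) =o[comap (fun x => ∑ l, x l) atTop]
          fun x => ∑ l, (x l : ℝ)) ∧
    (∀ i j, i ≠ j → 0 < N.Q i j) ∧ (∀ i, ∑ j, N.Q i j = 0) ∧
    (∀ i m, 0 ≤ v i m) ∧ (∀ i m, v i m ≠ 0 → 0 < (v i ᵥ* M i) m) ∧ (∃ m, ∀ j, v j m ≠ 0) ∧
    ∀ κ : ℝ, 0 < κ → κ ≤ 2 → ∀ z P, IsLaw N κ z P → P {ω | Escapes ω} = 0 := by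
  refine ⟨N0, ![!![-4, 0; 8, 1], !![1, 0; 0, -4]], ![![1, 1], ![1, 0]], fun i r hr => ⟨?_, .inr ?_⟩,
    fun i m => ?_, ?_, ?_, ?_, ?_, ⟨0, ?_⟩, fun κ h1 h2 z P hP => main hP h1 h2⟩
  · simp only [N0]; split_ifs <;> norm_num
  · revert i r; decide
  · refine (Asymptotics.isLittleO_zero _ _).congr_left fun x => ?_
    fin_cases i <;> simp only [N0, lam, Fin.zero_eta, Fin.mk_one, cons_val_zero, cons_val_one] <;>
      rw [Finset.sum_pair (by decide)] <;> fin_cases m <;> simp [mulVec, dotProduct] <;> ring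
  all_goals simp [N0, Fin.forall_fin_two, vecMul, dotProduct] <;> norm_num

end Pool.Agent.Results.MP_adc20b_pr.NotEvanescent
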